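import Pool.Agent.H.MP_0f79e1_lc.B
set_option linter.style.longLine false
namespace Pool.Agent.Results.MP_f7d510_lc.Yes
open Cardinal Pool.Agent.H.MP_0f79e1_lc

theorem result : ∀ l : Cardinal.{0}, ℵ₀ ≤ l → DiamondPlus l →
    (∃ (A : Type) (_ : PartialOrder A) (hA : A → K l), Aronszajn l hA) →
    ∃ (T : Type) (_ : PartialOrder T) (ht : T → K l), Kurepa l ht ∧ Strong ht :=
  fun _ hl hd ⟨_, _, _, ha⟩ => dp_strong hl hd ha

end Pool.Agent.Results.MP_f7d510_lc.Yes
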